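import Pool.Agent.H76.MQ2.N2
import Pool.Agent.H88.GX.Chx
import Pool.Agent.H88.AB.Sr

/-!
MP_78d38b_MQ (helper76), cheb2: primes with two places above and prescribed functional.
-/

set_option autoImplicit false
set_option linter.unusedSectionVars false
open scoped Classical

open WithZero NumberField IsDedekindDomain H38RT
open H38T1 (SC sc scu rep rep_ne sc_rep sc_mul sc_eq_zero sc_surj eo la si Pri OddP tp unif ka)
open H76PP H36MX H76MQ H30ZO H30OR H76OD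

namespace H76M2

variable {K L : Type} [Field K] [NumberField K] [Field L] [NumberField L] [Algebra K L]
  {v : HeightOneSpectrum (𝓞 K)} {θ : L}

/-- The trivial extension. -/
noncomputable def selfExt {A B : 𝓞 K} (h : Cub K L (A : K) (B : K) θ)
    (hD0 : 4 * (A : K) ^ 3 + 27 * (B : K) ^ 2 ≠ 0)
    (hsq : ¬ IsSquare (-(4 * (A : K) ^ 3 + 27 * (B : K) ^ 2))) :
    H88GX.Ext K K L (A : K) (B : K) θ where
  cub := h
  gal := inferInstance
  ha := fun v => v.valuation_le_one A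
  hb := fun v => v.valuation_le_one B
  dne := hD0
  dsq := hsq
  ρ := 1
  ρF := fun g x => by
    have h1 : g x = x := g.commutes x
    rw [h1]
    rfl
  ρθ := fun _ => rfl

/-- Functionals on a group of classes extend. -/
theorem ext_fun (H : AddSubgroup (SC L)) (φ : H →+ ZMod 2) :
    ∃ ψ : SC L →+ ZMod 2, ∀ c : H, ψ c = φ c := by
  let _ : Module (ZMod 2) (SC L) := AddCommGroup.zmodModule (fun x => H38T1.SC.two_smul x)
  obtain ⟨f, hf⟩ : ∃ f : AddSubgroup.toZModSubmodule 2 H →ₗ[ZMod 2] ZMod 2,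
      ∀ c : H, f ⟨c.1, c.2⟩ = φ c :=
    ⟨AddMonoidHom.toZModLinearMap 2
      (AddMonoidHom.mk' (fun x : AddSubgroup.toZModSubmodule 2 H => φ ⟨x.1, x.2⟩)
        (fun x y => φ.map_add ⟨x.1, x.2⟩ ⟨y.1, y.2⟩)), fun _ => rfl⟩
  obtain ⟨g, hg⟩ := f.exists_extend
  refine ⟨g.toAddMonoidHom, fun c => ?_⟩
  rw [← hf c, ← hg]
  rfl

/-- **cheb2.** -/
theorem cheb2 {A B : 𝓞 K} (h : Cub K L (A : K) (B : K) θ)
    (hD0 : 4 * (A : K) ^ 3 + 27 * (B : K) ^ 2 ≠ 0)
    (hsq : ¬ IsSquare (-(4 * (A : K) ^ 3 + 27 * (B : K) ^ 2)))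
    (Sg : Finset (HeightOneSpectrum (𝓞 K)))
    (h2 : ∀ v : HeightOneSpectrum (𝓞 K), v ∉ Sg → v.valuation K 2 = 1)
    (hd : ∀ v : HeightOneSpectrum (𝓞 K), v ∉ Sg →
      v.valuation K (4 * (A : K) ^ 3 + 27 * (B : K) ^ 2) = 1)
    {Y : Set (SC L)} (hY : Y.Finite) (hYH : ∀ c ∈ Y, c ∈ HH K L) (φ : SC L →+ ZMod 2)
    {T : Set (HeightOneSpectrum (𝓞 K))} (hT : T.Finite) :
    ∃ q : HeightOneSpectrum (𝓞 K), q ∉ Sg ∧ q ∉ T ∧ nb K L q = 2 ∧
      ∀ u r : SC L → ZMod 2,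
        (∀ E : K, E ≠ 0 → Even (ord (q.valuation K) E) → ∀ c ∈ HH K L,
          (Wc (algebraMap K (q.adicCompletion K)) (E ^ 2 * (A : K)) (E ^ 3 * (B : K))
            (algebraMap K L E * θ) c ↔ u c = 0)) →
        (∀ E : K, E ≠ 0 → Odd (ord (q.valuation K) E) → ∀ c ∈ HH K L,
          (Wc (algebraMap K (q.adicCompletion K)) (E ^ 2 * (A : K)) (E ^ 3 * (B : K))
            (algebraMap K L E * θ) c ↔ r c = 0)) →
        ∀ c ∈ Y, u c = 0 → r c = φ c := by
  obtain ⟨P, hP1, hP2⟩ := H76GX.exists_sp (selfExt h hD0 hsq) Sg hY hYH φ hT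
  have hPv : dn K P.v = P.v := H88AB.dn_self P.v
  have hout : P.v ∉ Sg := by
    have := P.out
    rwa [hPv] at this
  have hv : OddP P.v := h2 _ hout
  have htw : TwT K (A : K) θ P.v P.t1 P.t2 := P.tw
  obtain ⟨u', r', hu', hr', e1, e2, -⟩ := loc2N h hv (hd _ hout) htw
  refine ⟨P.v, hout, ?_, (loc2 h hv (hd _ hout) htw one_ne_zero (even_one' P.v) (unif_ne P.v)
    (odd_unif P.v)).1, ?_⟩
  · intro h3
    apply hP1
    change dn K P.v ∈ T
    rw [hPv]
    exact h3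
  · intro u r h3 h4 c hc hu0
    have hcH := hYH c hc
    have hz : ∀ x y : ZMod 2, (x = 0 ↔ y = 0) → x = y := by decide
    have k1 : u' c = 0 := (e1 1 one_ne_zero (even_one' P.v) c hcH).1
      ((h3 1 one_ne_zero (even_one' P.v) c hcH).2 hu0)
    have k2 : r c = r' c := hz _ _ (((h4 _ (unif_ne P.v) (odd_unif P.v) c hcH).symm).trans
      (e2 _ (unif_ne P.v) (odd_unif P.v) c hcH))
    rw [hu'] at k1
    rw [k2, hr', ← hP2 c hc]
    unfold uu
    rw [k1, mul_zero, add_zero]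

end H76M2
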