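import Pool.Agent.H76.MQ2.N2

/-!
MP_78d38b_MQ (helper76): comparison of two choices of the functionals at a place with three places above.
-/

set_option autoImplicit false
set_option linter.unusedSectionVars false
open scoped Classical

namespace H76M2

theorem comb {A : Type} [AddCommGroup A] (H : AddSubgroup A) {r0 r1 f : A →+ ZMod 2} {c0 c1 : A}
    (h0 : c0 ∈ H) (h1 : c1 ∈ H) (a0 : r0 c0 = 1) (a1 : r1 c0 = 0) (b0 : r0 c1 = 0) (b1 : r1 c1 = 1)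
    (hf : ∀ c ∈ H, r0 c = 0 → r1 c = 0 → f c = 0) {c : A} (hc : c ∈ H) :
    f c = f c0 * r0 c + f c1 * r1 c := by
  have hz : ∀ x : ZMod 2, x = 0 ∨ x = 1 := by decide
  have h2 : ∀ x y : ZMod 2, x + y = 0 → x = y := by decide
  rcases hz (r0 c) with g0 | g0 <;> rcases hz (r1 c) with g1 | g1
  · rw [hf c hc g0 g1, g0, g1, mul_zero, mul_zero, add_zero]
  · have h3 := hf (c + c1) (add_mem hc h1) (by rw [map_add, g0, b0, add_zero])
      (by rw [map_add, g1, b1]; decide)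
    rw [map_add] at h3
    rw [g0, g1, mul_zero, mul_one, zero_add]
    exact h2 _ _ h3
  · have h3 := hf (c + c0) (add_mem hc h0) (by rw [map_add, g0, a0]; decide)
      (by rw [map_add, g1, a1, add_zero])
    rw [map_add] at h3
    rw [g0, g1, mul_zero, mul_one, add_zero]
    exact h2 _ _ h3
  · have h3 := hf (c + (c0 + c1)) (add_mem hc (add_mem h0 h1))
      (by rw [map_add, map_add, g0, a0, b0]; decide) (by rw [map_add, map_add, g1, a1, b1]; decide)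
    rw [map_add, map_add] at h3
    rw [g0, g1, mul_one, mul_one]
    exact h2 _ _ h3

theorem fin_id : ∀ a b c d p q r s : ZMod 2, a * p + c * r = 1 → a * q + c * s = 0 →
    b * p + d * r = 0 → b * q + d * s = 1 → p = d ∧ q = c ∧ r = b ∧ s = a ∧ a * d + b * c = 1 := by
  decide

theorem fin_eq : ∀ a b c d e x y z w : ZMod 2, a * d + b * c = 1 →
    ((d * z + c * w = e * (c * x + d * y) ∧ b * z + a * w = e * (a * x + b * y)) ↔
      (z = e * y ∧ w = e * x)) := by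
  decide

/-- The comparison. -/
theorem transfer {A : Type} [AddCommGroup A] (H : AddSubgroup A)
    {f0 f1 g0 g1 r0 r1 u0 u1 : A →+ ZMod 2}
    (h1 : ∀ c ∈ H, (f0 c = 0 ∧ f1 c = 0) ↔ (r0 c = 0 ∧ r1 c = 0))
    (h2 : ∀ c ∈ H, (g0 c = 0 ∧ g1 c = 0) ↔ (u0 c = 0 ∧ u1 c = 0))
    (h3 : ∀ c ∈ H, f0 c * g0 c + f1 c * g1 c = r0 c * u0 c + r1 c * u1 c)
    (h4 : ∀ s0 s1 t0 t1 : ZMod 2, ∃ c ∈ H, r0 c = s0 ∧ r1 c = s1 ∧ u0 c = t0 ∧ u1 c = t1)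
    (e : ZMod 2) {c : A} (hc : c ∈ H) :
    (g0 c = e * f1 c ∧ g1 c = e * f0 c) ↔ (u0 c = e * r1 c ∧ u1 c = e * r0 c) := by
  obtain ⟨a0, ha0, a01, a02, a03, a04⟩ := h4 1 0 0 0
  obtain ⟨a1, ha1, a11, a12, a13, a14⟩ := h4 0 1 0 0
  obtain ⟨b0, hb0, b01, b02, b03, b04⟩ := h4 0 0 1 0
  obtain ⟨b1, hb1, b11, b12, b13, b14⟩ := h4 0 0 0 1
  have kf0 : ∀ c ∈ H, f0 c = f0 a0 * r0 c + f0 a1 * r1 c := fun c hc =>
    comb H ha0 ha1 a01 a02 a11 a12 (fun c hc x y => ((h1 c hc).2 ⟨x, y⟩).1) hc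
  have kf1 : ∀ c ∈ H, f1 c = f1 a0 * r0 c + f1 a1 * r1 c := fun c hc =>
    comb H ha0 ha1 a01 a02 a11 a12 (fun c hc x y => ((h1 c hc).2 ⟨x, y⟩).2) hc
  have kg0 : ∀ c ∈ H, g0 c = g0 b0 * u0 c + g0 b1 * u1 c := fun c hc =>
    comb H hb0 hb1 b03 b04 b13 b14 (fun c hc x y => ((h2 c hc).2 ⟨x, y⟩).1) hc
  have kg1 : ∀ c ∈ H, g1 c = g1 b0 * u0 c + g1 b1 * u1 c := fun c hc =>
    comb H hb0 hb1 b03 b04 b13 b14 (fun c hc x y => ((h2 c hc).2 ⟨x, y⟩).2) hc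
  have key : ∀ s0 s1 t0 t1 : ZMod 2, (f0 a0 * s0 + f0 a1 * s1) * (g0 b0 * t0 + g0 b1 * t1) +
      (f1 a0 * s0 + f1 a1 * s1) * (g1 b0 * t0 + g1 b1 * t1) = s0 * t0 + s1 * t1 := by
    intro s0 s1 t0 t1
    obtain ⟨z, hz, z0, z1, z2, z3⟩ := h4 s0 s1 t0 t1
    have h5 := h3 z hz
    rw [kf0 z hz, kf1 z hz, kg0 z hz, kg1 z hz, z0, z1, z2, z3] at h5
    exact h5
  have e1 := key 1 0 1 0
  have e2 := key 1 0 0 1
  have e3 := key 0 1 1 0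
  have e4 := key 0 1 0 1
  simp only [mul_one, mul_zero, add_zero, zero_add] at e1 e2 e3 e4
  obtain ⟨k1, k2, k3, k4, k5⟩ := fin_id (f0 a0) (f0 a1) (f1 a0) (f1 a1) (g0 b0) (g0 b1) (g1 b0)
    (g1 b1) e1 e2 e3 e4
  rw [kf0 c hc, kf1 c hc, kg0 c hc, kg1 c hc, k1, k2, k3, k4]
  exact fin_eq _ _ _ _ _ _ _ _ _ k5

end H76M2
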