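import Pool.Agent.H30.GN2.Xb

/-!
MP_78d38b_MQ (helper76), N1, N2: the local conditions of all twists at the good places with three or two places above.
-/

set_option autoImplicit false
set_option linter.unusedSectionVars false
open scoped Classical

open WithZero NumberField IsDedekindDomain H38RT
open H38T1 (SC sc scu rep rep_ne sc_rep sc_mul sc_eq_zero sc_surj eo la si Pri OddP tp unif ka)
open H76PP H36MX H76MQ H30ZO H30OR H76OD

namespace H76M2

variable {K L : Type} [Field K] [NumberField K] [Field L] [NumberField L] [Algebra K L]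
  {v : HeightOneSpectrum (𝓞 K)} {a b : K} {θ : L}

private theorem Td_if {V : Type} [AddCommGroup V] (B : V → V → ZMod 2) (hz : ∀ y, B 0 y = 0)
    (t : ZMod 2) (g y : V) : B (if t = 1 then g else 0) y = t * B g y := by
  by_cases ht : t = 1
  · rw [if_pos ht, ht, one_mul]
  · rw [if_neg ht, hz]
    have h0 : t = 0 := by
      revert ht
      revert t
      decide
    rw [h0, zero_mul]

/-- The local data at a place with three roots, for all twists. -/
theorem loc3N (h : Cub K L a b θ) (hv : OddP v) (ha : v.valuation K a ≤ 1)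
    (hb : v.valuation K b ≤ 1) (hd : v.valuation K (4 * a ^ 3 + 27 * b ^ 2) = 1)
    (hnb : nb K L v ≤ 3) {e : Fin 3 → v.adicCompletion K}
    (hs : R3 (algebraMap K (v.adicCompletion K) a) (algebraMap K (v.adicCompletion K) b) e) :
    ∃ (r : Fin 2 → (SC L →+ ZMod 2)) (u : K → Fin 2 → (SC L →+ ZMod 2)),
      (∀ D E : K, D ≠ 0 → Even (ord (v.valuation K) D) → E ≠ 0 → Odd (ord (v.valuation K) E) →
        LocD h v D E r (u E)) ∧
      (∀ E E' : K, E ≠ 0 → E' ≠ 0 → Even (ord (v.valuation K) (E * E')) → ∀ c,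
        u E' 0 c = u E 0 c + la v (sc (E * E')) * r 1 c ∧
        u E' 1 c = u E 1 c + la v (sc (E * E')) * r 0 c) ∧
      ∀ E : K, E ≠ 0 → Odd (ord (v.valuation K) E) → ∀ s t : Fin 2 → ZMod 2,
        ∃ c ∈ HH K L, (∀ i, r i c = s i) ∧ ∀ i, u E i c = t i := by
  have hF : HF (v.adicCompletion K) := (hilb K).hf v
  have hcoe : ∀ x : K, Valued.v (algebraMap K (v.adicCompletion K) x) = v.valuation K x :=
    fun x => H36CY.val_coe v x
  -- the roots
  obtain ⟨h1, d01, d02, d12⟩ := diff_one hs (by rw [hcoe]; exact ha) (by rw [hcoe]; exact hb) (by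
    have e1 : 4 * algebraMap K (v.adicCompletion K) a ^ 3 +
        27 * algebraMap K (v.adicCompletion K) b ^ 2 =
        algebraMap K (v.adicCompletion K) (4 * a ^ 3 + 27 * b ^ 2) := by
      rw [map_add, map_mul, map_mul, map_pow, map_pow, map_ofNat, map_ofNat]
    rw [e1, hcoe]
    exact hd)
  have h2 : ∀ i j, i ≠ j → Valued.v (e i - e j) = 1 := by
    have hsw : ∀ i j, Valued.v (e i - e j) = 1 → Valued.v (e j - e i) = 1 := fun i j hij => by
      rw [Valuation.map_sub_swap]
      exact hij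
    intro i j hij
    fin_cases i <;> fin_cases j
    · exact absurd rfl hij
    · exact d01
    · exact d02
    · exact hsw _ _ d01
    · exact absurd rfl hij
    · exact d12
    · exact hsw _ _ d02
    · exact hsw _ _ d12
    · exact absurd rfl hij
  have hne : ∀ i j, i ≠ j → e i - e j ≠ 0 := by
    intro i j hij h0
    have h3 := h2 i j hij
    rw [h0, map_zero] at h3
    exact zero_ne_one h3
  -- the nonsquare unit
  obtain ⟨n₀, hn1, hn2, hn3⟩ := exists_la hv
  have hn0 : (n₀ : K) ≠ 0 := by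
    intro h0
    apply hn1
    have h4 : n₀ = 0 := RingOfIntegers.coe_eq_zero_iff.1 h0
    rw [h4]
    exact v.asIdeal.zero_mem
  have hnsq := nsq_of_la hv hn0 hn3 hn2
  have hnv : Valued.v (algebraMap K (v.adicCompletion K) (n₀ : K)) = 1 := by
    rw [hcoe]
    exact (v.valuation_eq_one_iff_notMem (K := K) (r := n₀)).2 hn1
  obtain ⟨n', hn'⟩ : ∃ n' : v.adicCompletion K, n' = algebraMap K (v.adicCompletion K) (n₀ : K) :=
    ⟨_, rfl⟩
  rw [← hn'] at hnsq hnv
  have hn'0 : n' ≠ 0 := by
    rintro rfl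
    rw [map_zero] at hnv
    exact zero_ne_one hnv
  have hev : ∀ {y : v.adicCompletion K}, y ≠ 0 → (∃ m : ℤ, Valued.v y = exp (2 * m)) →
      hsc (sc y) (sc n') = 0 := by
    intro y hy hm
    rw [hsc_sc hy hn'0]
    exact (par_iff hv hnv hnsq hy).2 hm
  have hod : ∀ {y : v.adicCompletion K}, y ≠ 0 → (∃ m : ℤ, Valued.v y = exp (2 * m + 1)) →
      hsc (sc y) (sc n') = 1 := by
    rintro y hy ⟨m, hm⟩
    rw [hsc_sc hy hn'0]
    have h3 : H36MX.hs y n' ≠ 0 := by
      intro h3
      obtain ⟨l, hl⟩ := (par_iff hv hnv hnsq hy).1 h3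
      rw [hm, exp_inj] at hl
      omega
    have h4 : ∀ t : ZMod 2, t ≠ 0 → t = 1 := by decide
    exact h4 _ h3
  obtain ⟨n, hn⟩ : ∃ n : SC (v.adicCompletion K), n = sc n' := ⟨_, rfl⟩
  have h0 : ∀ x y : SC (v.adicCompletion K), hsc x n = 0 → hsc y n = 0 → hsc x y = 0 := by
    intro x y hx hy
    obtain ⟨x0, hx0, rfl⟩ := sc_surj x
    obtain ⟨y0, hy0, rfl⟩ := sc_surj y
    rw [hn, hsc_sc hx0 hn'0] at hx
    rw [hn, hsc_sc hy0 hn'0] at hy
    obtain ⟨m, hm⟩ := (par_iff hv hnv hnsq hx0).1 hx
    obtain ⟨l, hl⟩ := (par_iff hv hnv hnsq hy0).1 hy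
    rw [hsc_sc hx0 hy0]
    exact hs_even hv hm hl
  have hord : ∀ x : K, x ≠ 0 → Valued.v (algebraMap K (v.adicCompletion K) x) =
      exp (-(ord (v.valuation K) x)) := by
    intro x hx
    rw [hcoe]
    unfold ord
    rw [neg_neg, exp_log ((Valuation.ne_zero_iff _).2 hx)]
  obtain ⟨f0, hf0⟩ : ∃ f : SC (v.adicCompletion K), f = sc ((e 0 - e 1) * (e 0 - e 2)) := ⟨_, rfl⟩
  obtain ⟨f2, hf2⟩ : ∃ f : SC (v.adicCompletion K), f = sc ((e 2 - e 0) * (e 2 - e 1)) := ⟨_, rfl⟩
  have q02 := hne 0 2 (by decide)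
  have q20 := hne 2 0 (by decide)
  have q01 := hne 0 1 (by decide)
  have q10 := hne 1 0 (by decide)
  have q12 := hne 1 2 (by decide)
  have q21 := hne 2 1 (by decide)
  have hf0n : hsc f0 n = 0 := by
    rw [hf0, hn]
    refine hev (mul_ne_zero q01 q02) ⟨0, ?_⟩
    rw [map_mul, h2 0 1 (by decide), h2 0 2 (by decide), mul_one, mul_zero, exp_zero]
  have hf2n : hsc f2 n = 0 := by
    rw [hf2, hn]
    refine hev (mul_ne_zero q20 q21) ⟨0, ?_⟩
    rw [map_mul, h2 2 0 (by decide), h2 2 1 (by decide), mul_one, mul_zero, exp_zero]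
  have hnn : hsc n n = 0 := by
    rw [hn]
    exact hev hn'0 ⟨0, by rw [hnv, mul_zero, exp_zero]⟩
  have hadd := hsc_add_left hF
  -- the functionals
  obtain ⟨R0, hR0⟩ : ∃ R : SC L →+ ZMod 2, ∀ c, R c = hsc (lc3 h _ hs 0 c) n :=
    ⟨AddMonoidHom.mk' (fun c => hsc (lc3 h _ hs 0 c) n) (fun c c' => by rw [map_add, hadd]),
      fun _ => rfl⟩
  obtain ⟨R1, hR1⟩ : ∃ R : SC L →+ ZMod 2, ∀ c, R c = hsc (lc3 h _ hs 2 c) n :=
    ⟨AddMonoidHom.mk' (fun c => hsc (lc3 h _ hs 2 c) n) (fun c c' => by rw [map_add, hadd]),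
      fun _ => rfl⟩
  obtain ⟨U0, hUU0⟩ : ∃ R : K → (SC L →+ ZMod 2), ∀ E c, R E c =
      hsc (lc3 h _ hs 2 c) (sc (algebraMap K (v.adicCompletion K) E * (e 2 - e 0))) +
        hsc f2 (sc (algebraMap K (v.adicCompletion K) E * (e 2 - e 0))) *
          hsc (lc3 h _ hs 0 c) n :=
    ⟨fun E => AddMonoidHom.mk' (fun c =>
      hsc (lc3 h _ hs 2 c) (sc (algebraMap K (v.adicCompletion K) E * (e 2 - e 0))) +
        hsc f2 (sc (algebraMap K (v.adicCompletion K) E * (e 2 - e 0))) *
          hsc (lc3 h _ hs 0 c) n)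
      (fun c c' => by rw [map_add, map_add, hadd, hadd]; ring), fun _ _ => rfl⟩
  obtain ⟨U1, hUU1⟩ : ∃ R : K → (SC L →+ ZMod 2), ∀ E c, R E c =
      hsc (lc3 h _ hs 0 c) (sc (algebraMap K (v.adicCompletion K) E * (e 0 - e 2))) +
        hsc f0 (sc (algebraMap K (v.adicCompletion K) E * (e 0 - e 2))) *
          hsc (lc3 h _ hs 2 c) n :=
    ⟨fun E => AddMonoidHom.mk' (fun c =>
      hsc (lc3 h _ hs 0 c) (sc (algebraMap K (v.adicCompletion K) E * (e 0 - e 2))) +
        hsc f0 (sc (algebraMap K (v.adicCompletion K) E * (e 0 - e 2))) *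
          hsc (lc3 h _ hs 2 c) n)
      (fun c c' => by rw [map_add, map_add, hadd, hadd]; ring), fun _ _ => rfl⟩
  have hD0 : 4 * a ^ 3 + 27 * b ^ 2 ≠ 0 := by
    intro h3
    rw [h3, map_zero] at hd
    exact zero_ne_one hd
  have hpow : 2 ^ nb K L v ≤ 2 ^ 3 := Nat.pow_le_pow_right (by norm_num) hnb
  have hz : ∀ y : SC (v.adicCompletion K), hsc 0 y = 0 := hsc_zero_left
  have h2t : ∀ t : ZMod 2, t + t = 0 := by decide
  refine ⟨![R0, R1], fun E => ![U0 E, U1 E], ?_, ?_, ?_⟩
  · intro D E hD hDe hE hEo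

    obtain ⟨E', hE'⟩ : ∃ E' : v.adicCompletion K, E' = algebraMap K (v.adicCompletion K) E := ⟨_, rfl⟩
    have hE'0 : E' ≠ 0 := by
      rw [hE']
      exact (map_ne_zero _).2 hE
    have hE'v : ∃ m : ℤ, Valued.v E' = exp (2 * m + 1) := by
      obtain ⟨m, hm⟩ := hEo
      exact ⟨-m - 1, by rw [hE', hord E hE, hm]; congr 1; ring⟩
    have hEd : ∀ i j, i ≠ j → ∃ m : ℤ, Valued.v (E' * (e i - e j)) = exp (2 * m + 1) := by
      intro i j hij
      obtain ⟨m, hm⟩ := hE'v
      exact ⟨m, by rw [map_mul, h2 i j hij, mul_one, hm]⟩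
    obtain ⟨g, hg⟩ : ∃ g : SC (v.adicCompletion K), g = sc (E' * (e 0 - e 2)) := ⟨_, rfl⟩
    obtain ⟨g', hg'⟩ : ∃ g' : SC (v.adicCompletion K), g' = sc (E' * (e 2 - e 0)) := ⟨_, rfl⟩
    have hgn : hsc g n = 1 := by
      rw [hg, hn]
      exact hod (mul_ne_zero hE'0 q02) (hEd 0 2 (by decide))
    have hgn' : hsc g' n = 1 := by
      rw [hg', hn]
      exact hod (mul_ne_zero hE'0 q20) (hEd 2 0 (by decide))
    have hgg : hsc g g' = 0 := by
      rw [hg, hg', hsc_sc (mul_ne_zero hE'0 q02) (mul_ne_zero hE'0 q20)]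
      have e1 : E' * (e 2 - e 0) = -(E' * (e 0 - e 2)) := by ring
      rw [e1]
      exact hs_neg hF.two (mul_ne_zero hE'0 q02)
    obtain ⟨V0, hV0⟩ : ∃ V, V = U0 E := ⟨_, rfl⟩
    obtain ⟨V1, hV1⟩ : ∃ V, V = U1 E := ⟨_, rfl⟩
    have hU0 : ∀ c, V0 c = hsc (lc3 h _ hs 2 c) g' + hsc f2 g' * hsc (lc3 h _ hs 0 c) n := by
      intro c
      rw [hV0, hUU0, hg', hE']
    have hU1 : ∀ c, V1 c = hsc (lc3 h _ hs 0 c) g + hsc f0 g * hsc (lc3 h _ hs 2 c) n := by
      intro c
      rw [hV1, hUU1, hg, hE']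

    change LocD h v D E ![R0, R1] ![U0 E, U1 E]
    rw [← hV0, ← hV1]
    refine ⟨?_, ?_, ?_⟩
    · -- the condition of the twist by `D`
      obtain ⟨W, hWH, hW, hW0, hW1⟩ := idx_W h hv ha hb hD0 hD
      intro c hc
      have key : c ∈ W ↔ ∀ i, (![R0, R1] : Fin 2 → (SC L →+ ZMod 2)) i c = 0 := by
        refine idx_eq hWH _ ?_ ?_ hW0 ?_ hc
        · intro c hcW
          obtain ⟨hcH, hcW'⟩ := (hW c).1 hcW
          obtain ⟨x, hx, hsq, hcl⟩ := kum3 h _ hs hD hcW'
          have hD'0 : algebraMap K (v.adicCompletion K) D ≠ 0 := (map_ne_zero _).2 hD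
          have hDv : ∃ m : ℤ, Valued.v (algebraMap K (v.adicCompletion K) D) = exp (2 * m) := by
            obtain ⟨m, hm⟩ := hDe
            exact ⟨-m, by rw [hord D hD, hm]; congr 1; ring⟩
          have hDd : ∀ y : v.adicCompletion K, Valued.v y = 1 →
              hsc (sc (algebraMap K (v.adicCompletion K) D * y)) n = 0 := by
            intro y hy
            have hy0 : y ≠ 0 := by
              rintro rfl
              rw [map_zero] at hy
              exact zero_ne_one hy
            rw [hn]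
            refine hev (mul_ne_zero hD'0 hy0) ?_
            obtain ⟨m, hm⟩ := hDv
            exact ⟨m, by rw [map_mul, hy, mul_one, hm]⟩
          have hsum := lc3_sum h _ hs hcH
          have hboth : hsc (lc3 h _ hs 0 c) n = 0 ∧ hsc (lc3 h _ hs 2 c) n = 0 := by
            rcases cls3 hv h1 h2 hD'0 hx hsq with h3 | ⟨-, h3⟩ | ⟨j, h3⟩
            · rw [hcl, hcl, h3, h3]
              exact ⟨hz _, hz _⟩
            · rw [hcl, hcl]
              exact ⟨hDd _ (h3 0), hDd _ (h3 2)⟩
            · have h4 : ∀ k, k ≠ j → hsc (lc3 h _ hs k c) n = 0 := by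
                intro k hk
                rw [hcl, h3 k hk]
                exact hDd _ (h2 j k (Ne.symm hk))
              fin_cases j
              · have h5 := h4 1 (by decide)
                have h6 := h4 2 (by decide)
                rw [hsum, hadd, h6, add_zero] at h5
                exact ⟨h5, h6⟩
              · exact ⟨h4 0 (by decide), h4 2 (by decide)⟩
              · have h5 := h4 1 (by decide)
                have h6 := h4 0 (by decide)
                rw [hsum, hadd, h6, zero_add] at h5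
                exact ⟨h6, h5⟩
          intro i
          fin_cases i
          · exact (hR0 c).trans hboth.1
          · exact (hR1 c).trans hboth.2
        · intro z
          obtain ⟨c, hc, hc0, hc2⟩ := surj3 h hs hv h1 (if z 0 = 1 then g else 0)
            (if z 1 = 1 then g else 0)
          refine ⟨c, hc, fun i => ?_⟩
          fin_cases i
          · refine (hR0 c).trans ?_
            rw [hc0, Td_if hsc hz, hgn, mul_one]
            rfl
          · refine (hR1 c).trans ?_
            rw [hc2, Td_if hsc hz, hgn, mul_one]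
            rfl
        · rw [Fintype.card_fin]
          omega
      rw [← key, hW c]
      exact ⟨fun h3 => ⟨hc, h3⟩, fun h3 => h3.2⟩
    · -- the condition of the twist by `E`
      obtain ⟨W, hWH, hW, hW0, hW1⟩ := idx_W h hv ha hb hD0 hE
      intro c hc
      have key : c ∈ W ↔ ∀ i, (![V0, V1] : Fin 2 → (SC L →+ ZMod 2)) i c = 0 := by
        refine idx_eq hWH _ ?_ ?_ hW0 ?_ hc
        · intro c hcW
          obtain ⟨hcH, hcW'⟩ := (hW c).1 hcW
          obtain ⟨x, hx, hsq, hcl⟩ := kum3 h _ hs hE hcW'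
          rw [← hE'] at hsq hcl
          have hsum := lc3_sum h _ hs hcH
          have hsw : ∀ {p q : v.adicCompletion K}, p ≠ 0 → q ≠ 0 →
              (sc (E' * p) : SC (v.adicCompletion K)) + sc (E' * q) = sc (p * q) := by
            intro p q hp hq
            rw [sc_mul hE'0 hp, sc_mul hE'0 hq, sc_mul hp hq]
            have e1 : (sc E' + sc p + (sc E' + sc q) : SC (v.adicCompletion K)) =
              (sc E' + sc E') + (sc p + sc q) := by abel
            rw [e1, add_self_SC, zero_add]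
          have hboth : hsc (lc3 h _ hs 2 c) g' + hsc f2 g' * hsc (lc3 h _ hs 0 c) n = 0 ∧
              hsc (lc3 h _ hs 0 c) g + hsc f0 g * hsc (lc3 h _ hs 2 c) n = 0 := by
            rcases cls3 hv h1 h2 hE'0 hx hsq with h3 | ⟨⟨m, hm⟩, -⟩ | ⟨j, h3⟩
            · rw [hcl, hcl, h3, h3]
              rw [hz, hz, hz, mul_zero, mul_zero, add_zero]
              exact ⟨rfl, rfl⟩
            · exfalso
              obtain ⟨l, hl⟩ := hE'v
              rw [hm, exp_inj] at hl
              omega
            · have h4 : ∀ k, k ≠ j → lc3 h _ hs k c = sc (E' * (e j - e k)) := by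
                intro k hk
                rw [hcl, h3 k hk]
              fin_cases j
              · have h5 : lc3 h _ hs 1 c = sc (E' * (e 0 - e 1)) := h4 1 (by decide)
                have h6 : lc3 h _ hs 2 c = sc (E' * (e 0 - e 2)) := h4 2 (by decide)
                have h7 : lc3 h _ hs 0 c = f0 := by
                  have e1 : lc3 h _ hs 0 c = lc3 h _ hs 1 c + lc3 h _ hs 2 c := by
                    rw [hsum, add_assoc, add_self_SC, add_zero]
                  rw [e1, h5, h6, hsw q01 q02, hf0]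
                rw [← hg] at h6
                rw [h6, h7, hgg, hf0n, hgn, mul_zero, mul_one, add_zero]
                exact ⟨rfl, h2t _⟩
              · have h5 : lc3 h _ hs 0 c = sc (E' * (e 1 - e 0)) := h4 0 (by decide)
                have h6 : lc3 h _ hs 2 c = sc (E' * (e 1 - e 2)) := h4 2 (by decide)
                have hm1 : ∀ {p : v.adicCompletion K}, p ≠ 0 →
                    (sc (-p) : SC (v.adicCompletion K)) = sc (-1) + sc p := by
                  intro p hp
                  have e1 : -p = (-1) * p := by ring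
                  rw [e1, sc_mul (neg_ne_zero.2 one_ne_zero) hp]
                have h7 : lc3 h _ hs 0 c = g' + f0 := by
                  rw [h5, hg', hf0, sc_mul hE'0 q10, sc_mul hE'0 q20, sc_mul q01 q02]
                  have e1 : e 1 - e 0 = -(e 0 - e 1) := by ring
                  have e2 : e 2 - e 0 = -(e 0 - e 2) := by ring
                  rw [e1, e2, hm1 q01, hm1 q02]
                  have e3 : (sc E' + (sc (-1) + sc (e 0 - e 2)) +
                      (sc (e 0 - e 1) + sc (e 0 - e 2)) : SC (v.adicCompletion K)) =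
                      sc E' + (sc (-1) + sc (e 0 - e 1)) +
                        (sc (e 0 - e 2) + sc (e 0 - e 2)) := by abel
                  rw [e3, add_self_SC, add_zero]
                have h8 : lc3 h _ hs 2 c = g + f2 := by
                  rw [h6, hg, hf2, sc_mul hE'0 q12, sc_mul hE'0 q02, sc_mul q20 q21]
                  have e1 : e 1 - e 2 = -(e 2 - e 1) := by ring
                  have e2 : e 2 - e 0 = -(e 0 - e 2) := by ring
                  rw [e1, e2, hm1 q21, hm1 q02]
                  have e3 : (sc E' + sc (e 0 - e 2) +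
                      (sc (-1) + sc (e 0 - e 2) + sc (e 2 - e 1)) : SC (v.adicCompletion K)) =
                      sc E' + (sc (-1) + sc (e 2 - e 1)) +
                        (sc (e 0 - e 2) + sc (e 0 - e 2)) := by abel
                  rw [e3, add_self_SC, add_zero]
                rw [h7, h8, hadd, hadd, hadd, hadd, hgg, hsc_comm g' g, hgg, hgn, hgn', hf0n, hf2n,
                  zero_add, zero_add, add_zero, mul_one, mul_one]
                exact ⟨h2t _, h2t _⟩
              · have h5 : lc3 h _ hs 0 c = sc (E' * (e 2 - e 0)) := h4 0 (by decide)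
                have h6 : lc3 h _ hs 1 c = sc (E' * (e 2 - e 1)) := h4 1 (by decide)
                have h7 : lc3 h _ hs 2 c = f2 := by
                  have e1 : lc3 h _ hs 2 c = lc3 h _ hs 0 c + lc3 h _ hs 1 c := by
                    rw [hsum, ← add_assoc, add_self_SC, zero_add]
                  rw [e1, h5, h6, hsw q20 q21, hf2]
                rw [← hg'] at h5
                rw [h5, h7, hsc_comm g' g, hgg, hf2n, hgn', mul_zero, mul_one, add_zero]
                exact ⟨h2t _, rfl⟩
          intro i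
          fin_cases i
          · exact (hU0 c).trans hboth.1
          · exact (hU1 c).trans hboth.2
        · intro z
          obtain ⟨c, hc, hc0, hc2⟩ := surj3 h hs hv h1 (if z 1 = 1 then n else 0)
            (if z 0 = 1 then n else 0)
          refine ⟨c, hc, fun i => ?_⟩
          fin_cases i
          · refine (hU0 c).trans ?_
            rw [hc0, hc2, Td_if hsc hz, Td_if hsc hz, hnn, mul_zero, mul_zero, add_zero,
              hsc_comm n g', hgn', mul_one]
            rfl
          · refine (hU1 c).trans ?_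
            rw [hc0, hc2, Td_if hsc hz, Td_if hsc hz, hnn, mul_zero, mul_zero, add_zero,
              hsc_comm n g, hgn, mul_one]
            rfl
        · rw [Fintype.card_fin]
          omega
      rw [← key, hW c]
      exact ⟨fun h3 => ⟨hc, h3⟩, fun h3 => h3.2⟩
    · -- the symbol
      intro c hc y hy hyc hal hbe
      have h3 := conq3 h hs hy (by rw [hyc]; exact hc) hal hbe
      rw [h3, hyc, Fin.sum_univ_two, ← hf0, ← hf2,
        bil3 hsc hadd hsc_comm h0 hgn hgn' hgg hf0n hf2n]
      change _ = R0 c * V0 c + R1 c * V1 c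
      rw [hR0, hR1, hU0, hU1]

  · intro E E' hE hE' hev' c
    have hEE : E * E' ≠ 0 := mul_ne_zero hE hE'
    have hi : ∀ x : K, x ≠ 0 → algebraMap K (v.adicCompletion K) x ≠ 0 := fun x hx =>
      (map_ne_zero _).2 hx
    have heo : eo v (sc (E * E')) = 0 := by
      rw [H38T1.eo_sc hEE]
      obtain ⟨m, hm⟩ := hev'
      rw [hm, Int.cast_add]
      exact CharTwo.add_self_eq_zero _
    have hkey : ∀ x : SC (v.adicCompletion K),
        hsc x (sc (algebraMap K (v.adicCompletion K) (E * E'))) = la v (sc (E * E')) * hsc x n := by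
      intro x
      have hc : ∀ t : ZMod 2, t = 0 ∨ t = 1 := by decide
      rcases hc (la v (sc (E * E'))) with h3 | h3
      · rw [(sc_eq_zero (hi _ hEE)).2 (sq_of_la hv hEE heo h3), hsc_comm, hz, h3, zero_mul]
      · have h4 : la v (sc (E * E' * (n₀ : K))) = 0 := by
          rw [sc_mul hEE hn0, H38T1.la_add hv, h3, hn3]
          decide
        have h5 : eo v (sc (E * E' * (n₀ : K))) = 0 := by
          rw [sc_mul hEE hn0, H38T1.eo_add, heo, hn2, add_zero]
        have h6 := sq_of_la hv (mul_ne_zero hEE hn0) h5 h4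
        rw [map_mul] at h6
        rw [sc_eq_of_sq (hi _ hEE) (hi _ hn0) h6, ← hn', ← hn, h3, one_mul]
    have hsum : ∀ y : v.adicCompletion K, y ≠ 0 →
        (sc (algebraMap K (v.adicCompletion K) E' * y) : SC (v.adicCompletion K)) =
          sc (algebraMap K (v.adicCompletion K) E * y) +
            sc (algebraMap K (v.adicCompletion K) (E * E')) := by
      intro y hy
      rw [map_mul, sc_mul (hi _ hE') hy, sc_mul (hi _ hE) hy, sc_mul (hi _ hE) (hi _ hE')]
      have e1 : (sc (algebraMap K (v.adicCompletion K) E) + sc y +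
          (sc (algebraMap K (v.adicCompletion K) E) + sc (algebraMap K (v.adicCompletion K) E')) :
            SC (v.adicCompletion K)) =
          (sc (algebraMap K (v.adicCompletion K) E) + sc (algebraMap K (v.adicCompletion K) E)) +
            (sc (algebraMap K (v.adicCompletion K) E') + sc y) := by abel
      rw [e1, add_self_SC, zero_add]
    have haddr : ∀ x y z : SC (v.adicCompletion K), hsc x (y + z) = hsc x y + hsc x z :=
      fun x y z => by rw [hsc_comm, hadd, hsc_comm y, hsc_comm z]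
    constructor
    · change U0 E' c = U0 E c + la v (sc (E * E')) * R1 c
      rw [hUU0, hUU0, hR1, hsum _ q20, haddr, haddr, hkey, hkey, hf2n]
      ring
    · change U1 E' c = U1 E c + la v (sc (E * E')) * R0 c
      rw [hUU1, hUU1, hR0, hsum _ q02, haddr, haddr, hkey, hkey, hf0n]
      ring
  · intro E hE hEo s t

    obtain ⟨E', hE'⟩ : ∃ E' : v.adicCompletion K, E' = algebraMap K (v.adicCompletion K) E := ⟨_, rfl⟩
    have hE'0 : E' ≠ 0 := by
      rw [hE']
      exact (map_ne_zero _).2 hE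
    have hE'v : ∃ m : ℤ, Valued.v E' = exp (2 * m + 1) := by
      obtain ⟨m, hm⟩ := hEo
      exact ⟨-m - 1, by rw [hE', hord E hE, hm]; congr 1; ring⟩
    have hEd : ∀ i j, i ≠ j → ∃ m : ℤ, Valued.v (E' * (e i - e j)) = exp (2 * m + 1) := by
      intro i j hij
      obtain ⟨m, hm⟩ := hE'v
      exact ⟨m, by rw [map_mul, h2 i j hij, mul_one, hm]⟩
    obtain ⟨g, hg⟩ : ∃ g : SC (v.adicCompletion K), g = sc (E' * (e 0 - e 2)) := ⟨_, rfl⟩
    obtain ⟨g', hg'⟩ : ∃ g' : SC (v.adicCompletion K), g' = sc (E' * (e 2 - e 0)) := ⟨_, rfl⟩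
    have hgn : hsc g n = 1 := by
      rw [hg, hn]
      exact hod (mul_ne_zero hE'0 q02) (hEd 0 2 (by decide))
    have hgn' : hsc g' n = 1 := by
      rw [hg', hn]
      exact hod (mul_ne_zero hE'0 q20) (hEd 2 0 (by decide))
    have hgg : hsc g g' = 0 := by
      rw [hg, hg', hsc_sc (mul_ne_zero hE'0 q02) (mul_ne_zero hE'0 q20)]
      have e1 : E' * (e 2 - e 0) = -(E' * (e 0 - e 2)) := by ring
      rw [e1]
      exact hs_neg hF.two (mul_ne_zero hE'0 q02)
    obtain ⟨V0, hV0⟩ : ∃ V, V = U0 E := ⟨_, rfl⟩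
    obtain ⟨V1, hV1⟩ : ∃ V, V = U1 E := ⟨_, rfl⟩
    have hU0 : ∀ c, V0 c = hsc (lc3 h _ hs 2 c) g' + hsc f2 g' * hsc (lc3 h _ hs 0 c) n := by
      intro c
      rw [hV0, hUU0, hg', hE']
    have hU1 : ∀ c, V1 c = hsc (lc3 h _ hs 0 c) g + hsc f0 g * hsc (lc3 h _ hs 2 c) n := by
      intro c
      rw [hV1, hUU1, hg, hE']

    change ∃ c ∈ HH K L, (∀ i, ![R0, R1] i c = s i) ∧ ∀ i, ![U0 E, U1 E] i c = t i
    rw [← hV0, ← hV1]
    obtain ⟨c, hc, hc0, hc2⟩ := surj3 h hs hv h1
      ((if s 0 = 1 then g else 0) + (if t 1 + s 0 * hsc g g + hsc f0 g * s 1 = 1 then n else 0))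
      ((if s 1 = 1 then g else 0) + (if t 0 + hsc f2 g' * s 0 = 1 then n else 0))
    have k0 : hsc (lc3 h _ hs 0 c) n = s 0 := by
      rw [hc0, hadd, Td_if hsc hz, Td_if hsc hz, hgn, hnn, mul_one, mul_zero, add_zero]
    have k2 : hsc (lc3 h _ hs 2 c) n = s 1 := by
      rw [hc2, hadd, Td_if hsc hz, Td_if hsc hz, hgn, hnn, mul_one, mul_zero, add_zero]
    have l0 : hsc (lc3 h _ hs 2 c) g' = t 0 + hsc f2 g' * s 0 := by
      rw [hc2, hadd, Td_if hsc hz, Td_if hsc hz, hgg, hsc_comm n g', hgn', mul_zero, zero_add,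
        mul_one]
    have l1 : hsc (lc3 h _ hs 0 c) g = s 0 * hsc g g + (t 1 + s 0 * hsc g g + hsc f0 g * s 1) := by
      rw [hc0, hadd, Td_if hsc hz, Td_if hsc hz, hsc_comm n g, hgn, mul_one]
    refine ⟨c, hc, fun i => ?_, fun i => ?_⟩
    · fin_cases i
      · exact (hR0 c).trans k0
      · exact (hR1 c).trans k2
    · fin_cases i
      · refine (hU0 c).trans ?_
        rw [k0, l0, add_assoc, h2t, add_zero]
        rfl
      · refine (hU1 c).trans ?_
        rw [k2, l1]
        have e1 : ∀ x y z : ZMod 2, x + (z + x + y) + y = z := by decide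
        exact e1 _ _ _

end H76M2
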