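import Pool.Agent.H76.MQ2.N1

/-!
MP_78d38b_MQ (helper76), N1, N2: the local conditions of all twists at the good places with one, two or three places above.
-/

set_option autoImplicit false
set_option linter.unusedSectionVars false
open scoped Classical

open WithZero NumberField IsDedekindDomain H38RT
open H38T1 (SC sc scu rep rep_ne sc_rep sc_mul sc_eq_zero sc_surj eo la si Pri OddP tp unif ka)
open H76PP H36MX H76MQ H30ZO H30OR H76OD

namespace H76M2

variable {K L : Type} [Field K] [NumberField K] [Field L] [NumberField L] [Algebra K L]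
  {v : HeightOneSpectrum (𝓞 K)} {θ : L}

theorem ord_unif (v : HeightOneSpectrum (𝓞 K)) : ord (v.valuation K) (unif v) = 1 := by
  unfold ord
  rw [H38T1.unif_spec, log_exp, neg_neg]

theorem unif_ne (v : HeightOneSpectrum (𝓞 K)) : unif v ≠ 0 := Cl_unif_ne v

theorem odd_unif (v : HeightOneSpectrum (𝓞 K)) : Odd (ord (v.valuation K) (unif v)) := by
  rw [ord_unif]
  exact odd_one

theorem even_one' (v : HeightOneSpectrum (𝓞 K)) : Even (ord (v.valuation K) (1 : K)) := by
  unfold ord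
  rw [map_one, log_one, neg_zero]
  exact ⟨0, rfl⟩

theorem ord_mul' (v : HeightOneSpectrum (𝓞 K)) {x y : K} (hx : x ≠ 0) (hy : y ≠ 0) :
    ord (v.valuation K) (x * y) = ord (v.valuation K) x + ord (v.valuation K) y := by
  unfold ord
  rw [map_mul, log_mul ((Valuation.ne_zero_iff _).2 hx) ((Valuation.ne_zero_iff _).2 hy)]
  ring

/-- The three cases. -/
theorem cases3 {A B : 𝓞 K} (h : Cub K L (A : K) (B : K) θ) (hv : OddP v)
    (h3 : v.valuation K 3 = 1)
    (hd : v.valuation K (4 * (A : K) ^ 3 + 27 * (B : K) ^ 2) = 1) :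
    (nb K L v = 3 ∧ ∃ e : Fin 3 → v.adicCompletion K,
      R3 (algebraMap K (v.adicCompletion K) (A : K)) (algebraMap K (v.adicCompletion K) (B : K)) e) ∨
    (nb K L v = 2 ∧ ∃ w₁ w₂ : HeightOneSpectrum (𝓞 L), TwT K (A : K) θ v w₁ w₂) ∨
    nb K L v = 1 := by
  have hA : v.valuation K (A : K) ≤ 1 := v.valuation_le_one A
  have hB : v.valuation K (B : K) ≤ 1 := v.valuation_le_one B
  have hco : ∀ x : 𝓞 K, x ∈ v.asIdeal ↔ v.valuation K (x : K) < 1 := fun x =>
    (v.valuation_lt_one_iff_mem (K := K) x).symm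
  by_cases H : ∃ t : 𝓞 K, t ^ 3 + A * t + B ∈ v.asIdeal
  · obtain ⟨t, ht⟩ := H
    by_cases H2 : ∃ s : 𝓞 K, -3 * t ^ 2 - 4 * A - s ^ 2 ∈ v.asIdeal
    · obtain ⟨s, hs⟩ := H2
      rw [hco] at ht hs
      have e1 : ((t ^ 3 + A * t + B : 𝓞 K) : K) = (t : K) ^ 3 + (A : K) * (t : K) + (B : K) := by
        change algebraMap (𝓞 K) K _ = _
        simp only [map_add, map_mul, map_pow]
      have e2 : ((-3 * t ^ 2 - 4 * A - s ^ 2 : 𝓞 K) : K) =
          -3 * (t : K) ^ 2 - 4 * (A : K) - (s : K) ^ 2 := by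
        change algebraMap (𝓞 K) K _ = _
        simp only [map_sub, map_mul, map_pow, map_neg, map_ofNat]
      obtain ⟨e, he⟩ := roots_of hv hA hB hd (v.valuation_le_one t)
        (lt_of_eq_of_lt (congrArg (v.valuation K) e1.symm) ht)
        (lt_of_eq_of_lt (congrArg (v.valuation K) e2.symm) hs)
      exact Or.inl ⟨nb_eq3 h hd he, e, he⟩
    · push Not at H2
      have h6 : (6 : 𝓞 K) ∉ v.asIdeal := by
        rw [hco]
        intro h6
        have e1 : ((6 : 𝓞 K) : K) = 2 * 3 := by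
          change algebraMap (𝓞 K) K 6 = _
          rw [map_ofNat]
          norm_num
        have h7 : v.valuation K (2 * 3) < 1 := lt_of_eq_of_lt (congrArg (v.valuation K) e1.symm) h6
        have h8 : v.valuation K 2 = 1 := hv
        rw [map_mul, h8, h3, one_mul] at h7
        exact lt_irrefl _ h7
      obtain ⟨w₁, w₂, htw⟩ := exists_TwT h (dsc_notMem hd) h6 ⟨t, ht, H2⟩
      exact Or.inr (Or.inl ⟨(loc2 h hv hd htw one_ne_zero (even_one' v) (unif_ne v)
        (odd_unif v)).1, w₁, w₂, htw⟩)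
  · push Not at H
    have hno : H73P2.NoRootAt v (A : K) (B : K) := by
      refine ⟨1, A, B, one_ne_zero, by ring, by ring, hA, hB, fun t ht => ?_⟩
      obtain ⟨t', ht'⟩ := Tf_approx v ht
      have h4 : v.valuation K (((t' ^ 3 + A * t' + B : 𝓞 K) : K)) = 1 :=
        (v.valuation_eq_one_iff_notMem (K := K)).2 (H t')
      have e1 : ((t' ^ 3 + A * t' + B : 𝓞 K) : K) = (t' : K) ^ 3 + (A : K) * (t' : K) + (B : K) := by
        change algebraMap (𝓞 K) K _ = _
        simp only [map_add, map_mul, map_pow]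
      have h5 : v.valuation K ((t' : K) ^ 3 + (A : K) * (t' : K) + (B : K)) = 1 :=
        (congrArg (v.valuation K) e1).symm.trans h4
      have e2 : t ^ 3 + (A : K) * t + (B : K) = ((t' : K) ^ 3 + (A : K) * (t' : K) + (B : K)) +
          (t - (t' : K)) * (t ^ 2 + t * (t' : K) + (t' : K) ^ 2 + (A : K)) := by ring
      have ht1 : v.valuation K (t' : K) ≤ 1 := v.valuation_le_one t'
      have h6 : v.valuation K
          ((t - (t' : K)) * (t ^ 2 + t * (t' : K) + (t' : K) ^ 2 + (A : K))) < 1 := by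
        rw [map_mul]
        refine mul_lt_one_of_lt_of_le ht' (Valuation.map_add_le _ (Valuation.map_add_le _
          (Valuation.map_add_le _ ?_ ?_) ?_) hA)
        · rw [map_pow]
          exact pow_le_one₀ zero_le ht
        · rw [map_mul]
          exact mul_le_one₀ ht zero_le ht1
        · rw [map_pow]
          exact pow_le_one₀ zero_le ht1
      rw [e2, Valuation.map_add_eq_of_lt_left _ (by rw [h5]; exact h6), h5]
    have hnb := H36O2.Oi_nb h hno
    have hnb1 := nb_ge1 K L v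
    exact Or.inr (Or.inr (by omega))

/-- The data at a place with three places above. -/
theorem type1 {A B : 𝓞 K} (h : Cub K L (A : K) (B : K) θ) (hv : OddP v)
    (h3 : v.valuation K 3 = 1)
    (hd : v.valuation K (4 * (A : K) ^ 3 + 27 * (B : K) ^ 2) = 1) (hnb : nb K L v = 3) :
    ∃ u1 u2 r1 r2 : SC L →+ ZMod 2,
      (∀ E : K, E ≠ 0 → Even (ord (v.valuation K) E) → ∀ c ∈ HH K L,
        (Wc (algebraMap K (v.adicCompletion K)) (E ^ 2 * (A : K)) (E ^ 3 * (B : K))
          (algebraMap K L E * θ) c ↔ u1 c = 0 ∧ u2 c = 0)) ∧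
      (∀ E : K, E ≠ 0 → Odd (ord (v.valuation K) E) → ∀ c ∈ HH K L,
        (Wc (algebraMap K (v.adicCompletion K)) (E ^ 2 * (A : K)) (E ^ 3 * (B : K))
          (algebraMap K L E * θ) c ↔ r1 c = la v (sc (E * unif v)) * u2 c ∧
            r2 c = la v (sc (E * unif v)) * u1 c)) ∧
      (∀ c ∈ HH K L, ∀ y : L, y ≠ 0 → sc y = c → al h y ≠ 0 → be h y ≠ 0 →
        hsv v (al h y) (be h y) = u1 c * r1 c + u2 c * r2 c) ∧
      ∀ s1 s2 t1 t2 : ZMod 2, ∃ c ∈ HH K L, u1 c = s1 ∧ u2 c = s2 ∧ r1 c = t1 ∧ r2 c = t2 := by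
  obtain ⟨e, he⟩ : ∃ e : Fin 3 → v.adicCompletion K,
      R3 (algebraMap K (v.adicCompletion K) (A : K))
        (algebraMap K (v.adicCompletion K) (B : K)) e := by
    rcases cases3 h hv h3 hd with h4 | h4 | h4
    · exact h4.2
    · exact absurd (hnb.symm.trans h4.1) (by norm_num)
    · exact absurd (hnb.symm.trans h4) (by norm_num)
  obtain ⟨r, u, hL, hT, hS⟩ := loc3N h hv (v.valuation_le_one A) (v.valuation_le_one B) hd hnb.le he
  refine ⟨r 0, r 1, u (unif v) 0, u (unif v) 1, ?_, ?_, ?_, ?_⟩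
  · intro E hE hEe c hc
    rw [(hL E (unif v) hE hEe (unif_ne v) (odd_unif v)).hr c hc, Fin.forall_fin_two]
  · intro E hE hEo c hc
    have h5 := (hL 1 E one_ne_zero (even_one' v) hE hEo).hu c hc
    rw [h5, Fin.forall_fin_two]
    obtain ⟨h6, h7⟩ := hT (unif v) E (unif_ne v) hE (by
      rw [ord_mul' v (unif_ne v) hE]
      exact (odd_unif v).add_odd hEo) c
    rw [h6, h7, mul_comm (unif v) E]
    have h8 : ∀ x y : ZMod 2, x + y = 0 ↔ x = y := by decide
    rw [h8, h8]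
  · intro c hc y hy hyc hal hbe
    rw [(hL 1 (unif v) one_ne_zero (even_one' v) (unif_ne v) (odd_unif v)).hq c hc y hy hyc hal hbe,
      Fin.sum_univ_two]
  · intro s1 s2 t1 t2
    obtain ⟨c, hc, h5, h6⟩ := hS (unif v) (unif_ne v) (odd_unif v) ![s1, s2] ![t1, t2]
    exact ⟨c, hc, h5 0, h5 1, h6 0, h6 1⟩

/-- The functionals at a place with two places above. -/
theorem loc2N {A B : 𝓞 K} (h : Cub K L (A : K) (B : K) θ) (hv : OddP v)
    (hd : v.valuation K (4 * (A : K) ^ 3 + 27 * (B : K) ^ 2) = 1)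
    {w₁ w₂ : HeightOneSpectrum (𝓞 L)} (h2 : TwT K (A : K) θ v w₁ w₂) :
    ∃ u r : SC L →+ ZMod 2, (∀ c, u c = eo w₂ c) ∧ (∀ c, r c = uu K (A : K) θ w₁ w₂ c) ∧
      (∀ E : K, E ≠ 0 → Even (ord (v.valuation K) E) → ∀ c ∈ HH K L,
        (Wc (algebraMap K (v.adicCompletion K)) (E ^ 2 * (A : K)) (E ^ 3 * (B : K))
          (algebraMap K L E * θ) c ↔ u c = 0)) ∧
      (∀ E : K, E ≠ 0 → Odd (ord (v.valuation K) E) → ∀ c ∈ HH K L,
        (Wc (algebraMap K (v.adicCompletion K)) (E ^ 2 * (A : K)) (E ^ 3 * (B : K))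
          (algebraMap K L E * θ) c ↔ r c = 0)) ∧
      (∀ c ∈ HH K L, ∀ y : L, y ≠ 0 → sc y = c → al h y ≠ 0 → be h y ≠ 0 →
        hsv v (al h y) (be h y) = u c * r c) := by
  have hA : v.valuation K (A : K) ≤ 1 := v.valuation_le_one A
  have hB : v.valuation K (B : K) ≤ 1 := v.valuation_le_one B
  have hD0 : 4 * (A : K) ^ 3 + 27 * (B : K) ^ 2 ≠ 0 := by
    intro h3
    rw [h3, map_zero] at hd
    exact zero_ne_one hd
  have hR : HR2 K L A B θ := hr2 h hD0
  have hw1 : OddP w₁ := (oddP_dn (K := K)).2 (by rw [h2.dn1]; exact hv)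
  have hnb : nb K L v = 2 :=
    (loc2 h hv hd h2 one_ne_zero (even_one' v) (unif_ne v) (odd_unif v)).1
  have hdsc : dsc A B ∉ v.asIdeal ^ 2 := dsc_notMem hd
  have hz : ∀ x : ZMod 2, x = 0 ∨ x = 1 := by decide
  have heo1 : ∀ c ∈ HH K L, eo w₁ c = 0 := by
    intro c hc
    obtain ⟨y, hy, rfl⟩ := sc_surj c
    rw [H30ZO.mem_HH hy] at hc
    exact gg_eo1 hR hv h2.toTwG h.finrank hy hc
  obtain ⟨R, hRc⟩ : ∃ R : SC L →+ ZMod 2, ∀ c, R c = eo w₂ c :=
    ⟨AddMonoidHom.mk' (fun c => eo w₂ c) (fun c c' => H38T1.eo_add _ _ _), fun _ => rfl⟩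
  obtain ⟨U, hUc⟩ : ∃ U : SC L →+ ZMod 2, ∀ c, U c = uu K (A : K) θ w₁ w₂ c :=
    ⟨AddMonoidHom.mk' (fun c => uu K (A : K) θ w₁ w₂ c) (fun c c' => by
      unfold uu
      rw [H38T1.la_add hw1, H38T1.eo_add]
      ring), fun _ => rfl⟩
  refine ⟨R, U, hRc, hUc, ?_, ?_, ?_⟩
  · intro D hD hDe c hc
    rw [Wc_even h hA hB hv hd hD hDe hc]
    constructor
    · intro h3
      rw [hRc]
      exact h3 w₂ h2.dn2
    · intro h3 w hw
      rcases h2.only w hw with hww | hww
      · rw [hww]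
        exact heo1 c hc
      · rw [hww, ← hRc]
        exact h3
  · intro E hE hEo
    obtain ⟨W, hWH, hW, hW0, hW1⟩ := idx_W h hv hA hB hD0 hE
    intro c hc
    have key : c ∈ W ↔ ∀ i, (fun _ => U : Fin 1 → (SC L →+ ZMod 2)) i c = 0 := by
      refine idx_eq hWH _ ?_ ?_ hW0 ?_ hc
      · intro c hcW _
        rw [hUc]
        exact Wc_spec h (fun v => v.valuation_le_one A) (fun v => v.valuation_le_one B) hv hd h2 hE
          hEo ((hW c).1 hcW).1 ((hW c).1 hcW).2
      · intro z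
        rcases hz (z 0) with h3 | h3
        · refine ⟨0, (HH K L).zero_mem, fun i => ?_⟩
          rw [map_zero, Subsingleton.elim i 0, h3]
        · obtain ⟨c, hc, hc1⟩ := exists_uu h hD0 hv h2
          refine ⟨c, hc, fun i => ?_⟩
          rw [hUc, hc1, Subsingleton.elim i 0, h3]
      · rw [Fintype.card_fin]
        rw [hnb] at hW1
        omega
    have key2 : (∀ i, (fun _ => U : Fin 1 → (SC L →+ ZMod 2)) i c = 0) ↔ U c = 0 :=
      ⟨fun h3 => h3 0, fun h3 _ => h3⟩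
    rw [← key2, ← key, hW c]
    exact ⟨fun h3 => ⟨hc, h3⟩, fun h3 => h3.2⟩
  · intro c hc y hy hyc hal hbe
    have hN : IsSquare (Algebra.norm K y) := by
      rw [← H30ZO.mem_HH hy, hyc]
      exact hc
    rw [hRc, hUc, (hilb K).odd v hv _ _ hal hbe]
    rcases hz (eo w₂ c) with h0 | h0
    · rw [h0, zero_mul]
      refine conic_CL h hR hv hdsc hy hN hal hbe ?_
      intro w hw
      rcases h2.only w hw with hww | hww
      · rw [hww, hyc]
        exact heo1 c hc
      · rw [hww, hyc]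
        exact h0
    · have h1 := conic_CT h hR hv h2 hy hN hal hbe (by rw [hyc]; exact h0)
      rw [h1, hyc, h0, one_mul]
      unfold uu nuw
      rw [h0, mul_one]

/-- The data at a place with two places above. -/
theorem type2 {A B : 𝓞 K} (h : Cub K L (A : K) (B : K) θ) (hv : OddP v)
    (h3 : v.valuation K 3 = 1)
    (hd : v.valuation K (4 * (A : K) ^ 3 + 27 * (B : K) ^ 2) = 1) (hnb : nb K L v = 2) :
    ∃ u r : SC L →+ ZMod 2,
      (∀ E : K, E ≠ 0 → Even (ord (v.valuation K) E) → ∀ c ∈ HH K L,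
        (Wc (algebraMap K (v.adicCompletion K)) (E ^ 2 * (A : K)) (E ^ 3 * (B : K))
          (algebraMap K L E * θ) c ↔ u c = 0)) ∧
      (∀ E : K, E ≠ 0 → Odd (ord (v.valuation K) E) → ∀ c ∈ HH K L,
        (Wc (algebraMap K (v.adicCompletion K)) (E ^ 2 * (A : K)) (E ^ 3 * (B : K))
          (algebraMap K L E * θ) c ↔ r c = 0)) ∧
      (∀ c ∈ HH K L, ∀ y : L, y ≠ 0 → sc y = c → al h y ≠ 0 → be h y ≠ 0 →
        hsv v (al h y) (be h y) = u c * r c) := by
  rcases cases3 h hv h3 hd with h4 | h4 | h4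
  · exact absurd (hnb.symm.trans h4.1) (by norm_num)
  · obtain ⟨w₁, w₂, h2⟩ := h4.2
    obtain ⟨u, r, -, -, h5⟩ := loc2N h hv hd h2
    exact ⟨u, r, h5⟩
  · exact absurd (hnb.symm.trans h4) (by norm_num)

/-- The data at a place with one place above. -/
theorem type3 {A B : 𝓞 K} (h : Cub K L (A : K) (B : K) θ) (hv : OddP v)
    (hd : v.valuation K (4 * (A : K) ^ 3 + 27 * (B : K) ^ 2) = 1) (hnb : nb K L v ≤ 1) :
    (∀ E : K, E ≠ 0 → ∀ c ∈ HH K L,
      Wc (algebraMap K (v.adicCompletion K)) (E ^ 2 * (A : K)) (E ^ 3 * (B : K))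
        (algebraMap K L E * θ) c) ∧
      (∀ c ∈ HH K L, ∀ y : L, y ≠ 0 → sc y = c → al h y ≠ 0 → be h y ≠ 0 →
        hsv v (al h y) (be h y) = 0) ∧
      ∀ c ∈ HH K L, ∀ w : HeightOneSpectrum (𝓞 L), dn K w = v → eo w c = 0 := by
  have hA : v.valuation K (A : K) ≤ 1 := v.valuation_le_one A
  have hB : v.valuation K (B : K) ≤ 1 := v.valuation_le_one B
  have hD0 : 4 * (A : K) ^ 3 + 27 * (B : K) ^ 2 ≠ 0 := by
    intro h3
    rw [h3, map_zero] at hd
    exact zero_ne_one hd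
  refine ⟨fun E hE c hc => H30OD.Wc_all h v hA hB hD0 hv hnb hE hc, fun c hc y hy hyc hal hbe => ?_,
    fun c hc => ?_⟩
  · have h1 := (loc1 h hv hA hB hD0 hnb one_ne_zero (unif_ne v) (fun i => i.elim0)
      (fun i => i.elim0)).hq c hc y hy hyc hal hbe
    rw [h1, Fin.sum_univ_zero]
  · exact (Wc_even h hA hB hv hd one_ne_zero (even_one' v) hc).1
      (H30OD.Wc_all h v hA hB hD0 hv hnb one_ne_zero hc)

end H76M2
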